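import Pool.Agent.Helper53.AJ.Defs

/-!
# The decomposition of a structure into maximal families (block D)
-/

set_option autoImplicit false

namespace Pool.Agent.Helper53.AJ

open FirstOrder Pool.Agent.Helper20.Spectra Pool.Agent.Helper58.QD Pool.Agent.Helper14.SS
open Pool.Agent.Helper31.QD (Au)

variable {S : Type} {ar : S → ℕ}

theorem au_one {V : Type} (R : Interp S ar V) : Au R (1 : Equiv.Perm V) := fun _ _ => Iff.rfl

/-- a family with at most one block -/
theorem hm_single {V : Type} (R : Interp S ar V) {q t : ℕ} (hq : q ≤ 1) (u : Fin q × Fin t → V)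
    (hu : Function.Injective u) : Hm R u := by
  refine ⟨hu, fun π σ h1 h2 => ?_⟩
  have h3 : π = 1 := by
    ext i
    have h4 := (π i).2
    have h5 := i.2
    simp only [Equiv.Perm.coe_one, id]
    omega
  have h4 : σ = 1 := by
    ext z
    by_cases hz : ∃ p, u p = z
    · obtain ⟨⟨i, x⟩, rfl⟩ := hz
      rw [h1, h3]
      rfl
    · push Not at hz
      rw [h2 z hz]
      rfl
  rw [h4]
  exact au_one R

/-- every class is the range of a family -/
theorem class_range {V : Type} {R : Interp S ar V} {k N : ℕ} (hk : 1 ≤ k)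
    (hmax : ∀ {q t : ℕ} {w : Fin q × Fin t → V}, Mx R k N w → ∀ {q' t' : ℕ} {u : Fin q' × Fin t' → V},
      Big R k N u → (Set.range u ∩ Set.range w).Nonempty → Set.range u ⊆ Set.range w)
    (hex : ∀ {q t : ℕ} {u : Fin q × Fin t → V}, Big R k N u →
      ∃ (q' t' : ℕ) (w : Fin q' × Fin t' → V), Mx R k N w ∧ Set.range u ⊆ Set.range w)
    (ξ : Quot (Rl R k N)) : ∃ (q t : ℕ) (u : Fin q × Fin t → V), Hm R u ∧ t ≤ k ∧
      ∀ z, z ∈ Set.range u ↔ Quot.mk (Rl R k N) z = ξ := by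
  induction ξ using Quot.ind with
  | mk a =>
  by_cases ha : ∃ b, Rl R k N a b
  · obtain ⟨b, q, t, u, hu, hau, hbu⟩ := ha
    obtain ⟨q', t', w, hw, huw⟩ := hex hu
    have haw : a ∈ Set.range w := huw hau
    refine ⟨q', t', w, hw.1.1.1, hw.1.2.1, fun z => ⟨fun hz => ?_, fun hz => ?_⟩⟩
    · exact Quot.sound ⟨q', t', w, hw.1, hz, haw⟩
    · have h1 : Relation.EqvGen (Rl R k N) z a := Quot.eqvGen_exact hz
      have h2 : ∀ {x y : V}, Relation.EqvGen (Rl R k N) x y →
          (x ∈ Set.range w ↔ y ∈ Set.range w) := by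
        intro x y hxy
        induction hxy with
        | rel x y h =>
          obtain ⟨q₁, t₁, u₁, h₁, hx, hy⟩ := h
          exact ⟨fun hxw => hmax hw h₁ ⟨x, hx, hxw⟩ hy, fun hyw => hmax hw h₁ ⟨y, hy, hyw⟩ hx⟩
        | refl x => exact Iff.rfl
        | symm x y _ ih => exact ih.symm
        | trans x y z _ _ ih1 ih2 => exact ih1.trans ih2
      exact (h2 h1).2 haw
  · have hsym : ∀ b, ¬ Rl R k N b a := by
      rintro b ⟨q, t, u, hu, h1, h2⟩
      exact ha ⟨b, q, t, u, hu, h2, h1⟩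
    refine ⟨1, 1, fun _ => a, hm_single R le_rfl _ ?_, hk, fun z => ⟨?_, fun hz => ?_⟩⟩
    · intro p p' _
      exact Subsingleton.elim _ _
    · rintro ⟨_, rfl⟩
      rfl
    · have h1 : Relation.EqvGen (Rl R k N) z a := Quot.eqvGen_exact hz
      have h2 : ∀ {x y : V}, Relation.EqvGen (Rl R k N) x y → (x = a ↔ y = a) := by
        intro x y hxy
        induction hxy with
        | rel x y h =>
          constructor
          · rintro rfl
            exact absurd ⟨y, h⟩ ha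
          · rintro rfl
            exact absurd h (hsym _)
        | refl x => exact Iff.rfl
        | symm x y _ ih => exact ih.symm
        | trans x y z _ _ ih1 ih2 => exact ih1.trans ih2
      have h3 : z = a := (h2 h1).2 rfl
      exact ⟨(0, 0), h3.symm⟩

theorem dec_of_max {V : Type} [Finite V] {R : Interp S ar V} {k N C : ℕ} (hk : 1 ≤ k)
    (hC : Nat.card (Quot (Rl R k N)) ≤ C)
    (hmax : ∀ {q t : ℕ} {w : Fin q × Fin t → V}, Mx R k N w → ∀ {q' t' : ℕ} {u : Fin q' × Fin t' → V},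
      Big R k N u → (Set.range u ∩ Set.range w).Nonempty → Set.range u ⊆ Set.range w)
    (hex : ∀ {q t : ℕ} {u : Fin q × Fin t → V}, Big R k N u →
      ∃ (q' t' : ℕ) (w : Fin q' × Fin t' → V), Mx R k N w ∧ Set.range u ⊆ Set.range w) :
    Dec R k C := by
  have hfin : Finite (Quot (Rl R k N)) := Finite.of_surjective (Quot.mk _) Quot.mk_surjective
  obtain ⟨f⟩ : Nonempty (Quot (Rl R k N) ↪ Fin C) := by
    have e := Finite.equivFin (Quot (Rl R k N))
    exact ⟨e.toEmbedding.trans (Fin.castLEEmb hC)⟩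
  have hfam : ∀ c : Fin C, ∃ (q t : ℕ) (u : Fin q × Fin t → V), Hm R u ∧ t ≤ k ∧
      ∀ z, z ∈ Set.range u ↔ f (Quot.mk (Rl R k N) z) = c := by
    intro c
    by_cases hc : ∃ ξ, f ξ = c
    · obtain ⟨ξ, rfl⟩ := hc
      obtain ⟨q, t, u, h1, h2, h3⟩ := class_range hk hmax hex ξ
      exact ⟨q, t, u, h1, h2, fun z => by rw [h3, f.injective.eq_iff]⟩
    · push Not at hc
      refine ⟨0, 0, fun p => p.1.elim0, hm_single R (Nat.zero_le 1) _ (fun p => p.1.elim0),
        Nat.zero_le k, fun z => ⟨?_, fun h => absurd h (hc _)⟩⟩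
      rintro ⟨p, -⟩
      exact p.1.elim0
  choose q t u h1 h2 h3 using hfam
  refine ⟨q, t, fun x => u x.1 x.2, ⟨?_, fun z => ?_⟩, h2, h1⟩
  · rintro ⟨c, p⟩ ⟨c', p'⟩ h
    have h : u c p = u c' p' := h
    have hc : f (Quot.mk (Rl R k N) (u c p)) = c := (h3 c _).1 ⟨p, rfl⟩
    have hc' : f (Quot.mk (Rl R k N) (u c' p')) = c' := (h3 c' _).1 ⟨p', rfl⟩
    rw [h, hc'] at hc
    subst hc
    rw [(h1 _).1 h]
  · obtain ⟨p, hp⟩ := (h3 (f (Quot.mk (Rl R k N) z)) z).2 rfl
    exact ⟨⟨_, p⟩, hp⟩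

end Pool.Agent.Helper53.AJ
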